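import Mathlib

/-!
# A counting argument: sparse pseudo-random graphs
-/

set_option autoImplicit false

namespace Pool.Agent.KS6_61.BQ

open Finset

section
variable {S : Type*} [Fintype S] [DecidableEq S]

/-- functions with prescribed values on a set -/
lemma card_restricted (t : ℕ) (P : Finset S) (A0 : Finset (Fin t)) :
    (univ.filter (fun f : S → Fin t => ∀ e ∈ P, f e ∈ A0)).card * t ^ P.card =
      A0.card ^ P.card * t ^ Fintype.card S := by
  have h1 : univ.filter (fun f : S → Fin t => ∀ e ∈ P, f e ∈ A0) =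
      Fintype.piFinset (fun e => if e ∈ P then A0 else univ) := by
    ext f
    rw [mem_filter, Fintype.mem_piFinset]
    constructor
    · rintro ⟨_, h⟩ e
      by_cases he : e ∈ P
      · rw [if_pos he]; exact h e he
      · rw [if_neg he]; exact mem_univ _
    · intro h
      refine ⟨mem_univ _, fun e he => ?_⟩
      have := h e
      rwa [if_pos he] at this
  rw [h1, Fintype.card_piFinset]
  have h2 : ∀ e : S, (if e ∈ P then A0 else univ).card = if e ∈ P then A0.card else t := by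
    intro e
    split_ifs
    · rfl
    · rw [card_univ, Fintype.card_fin]
  simp_rw [h2]
  rw [prod_ite, prod_const, prod_const]
  have h3 : (univ.filter (fun e => e ∈ P)) = P := by ext; simp
  have h4 : (univ.filter (fun e => e ∉ P)) = Pᶜ := by ext; simp
  rw [h3, h4, mul_assoc, ← pow_add]
  congr 2
  rw [card_compl]
  have := card_le_univ P
  omega

end

section
variable {n : ℕ}

/-- the pairs between two sets -/
def cross (A B : Finset (Fin n)) : Finset (Sym2 (Fin n)) :=
  (A ×ˢ B).image (fun p => s(p.1, p.2))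

lemma card_cross {A B : Finset (Fin n)} (h : Disjoint A B) :
    (cross A B).card = A.card * B.card := by
  unfold cross
  rw [card_image_of_injOn, card_product]
  rintro ⟨a, b⟩ hab ⟨c, d⟩ hcd he
  rw [mem_coe, mem_product] at hab hcd
  simp only at hab hcd he
  rw [Sym2.eq_iff] at he
  rcases he with ⟨h1, h2⟩ | ⟨h1, h2⟩
  · rw [h1, h2]
  · exfalso
    rw [h1] at hab
    exact (disjoint_left.mp h hab.1) hcd.2

/-- the functions that take values in `A0` on all pairs between some disjoint `k`-sets -/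
def badSet (n t k : ℕ) (A0 : Finset (Fin t)) : Finset (Sym2 (Fin n) → Fin t) :=
  univ.filter (fun f => ∃ A B : Finset (Fin n), A.card = k ∧ B.card = k ∧ Disjoint A B ∧
    ∀ a ∈ A, ∀ b ∈ B, f s(a, b) ∈ A0)

lemma card_badSet (n t k : ℕ) (A0 : Finset (Fin t)) :
    (badSet n t k A0).card * t ^ (k * k) ≤
      n ^ (2 * k) * (A0.card ^ (k * k) * t ^ Fintype.card (Sym2 (Fin n))) := by
  classical
  set I : Finset (Finset (Fin n) × Finset (Fin n)) :=
    ((powersetCard k univ) ×ˢ (powersetCard k univ)).filter (fun p => Disjoint p.1 p.2) with hI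
  have h1 : badSet n t k A0 ⊆ I.biUnion (fun p =>
      univ.filter (fun f : Sym2 (Fin n) → Fin t => ∀ e ∈ cross p.1 p.2, f e ∈ A0)) := by
    intro f hf
    unfold badSet at hf
    rw [mem_filter] at hf
    obtain ⟨-, A, B, hA, hB, hAB, h⟩ := hf
    rw [mem_biUnion]
    refine ⟨(A, B), ?_, ?_⟩
    · rw [hI, mem_filter, mem_product, mem_powersetCard, mem_powersetCard]
      exact ⟨⟨⟨subset_univ _, hA⟩, ⟨subset_univ _, hB⟩⟩, hAB⟩
    · rw [mem_filter]
      refine ⟨mem_univ _, ?_⟩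
      intro e he
      unfold cross at he
      rw [mem_image] at he
      obtain ⟨⟨a, b⟩, hab, rfl⟩ := he
      rw [mem_product] at hab
      exact h a hab.1 b hab.2
  have h2 : I.card ≤ n ^ (2 * k) := by
    calc I.card ≤ ((powersetCard k (univ : Finset (Fin n))) ×ˢ
          (powersetCard k (univ : Finset (Fin n)))).card := card_filter_le _ _
      _ = n.choose k * n.choose k := by
          rw [card_product, card_powersetCard, card_univ, Fintype.card_fin]
      _ ≤ n ^ k * n ^ k := Nat.mul_le_mul (Nat.choose_le_pow n k) (Nat.choose_le_pow n k)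
      _ = n ^ (2 * k) := by rw [← pow_add]; congr 1; ring
  calc (badSet n t k A0).card * t ^ (k * k)
      ≤ (∑ p ∈ I, (univ.filter (fun f : Sym2 (Fin n) → Fin t =>
          ∀ e ∈ cross p.1 p.2, f e ∈ A0)).card) * t ^ (k * k) :=
        Nat.mul_le_mul_right _ ((card_le_card h1).trans card_biUnion_le)
    _ = ∑ p ∈ I, (univ.filter (fun f : Sym2 (Fin n) → Fin t =>
          ∀ e ∈ cross p.1 p.2, f e ∈ A0)).card * t ^ (k * k) := by rw [sum_mul]
    _ = ∑ p ∈ I, A0.card ^ (k * k) * t ^ Fintype.card (Sym2 (Fin n)) := by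
        apply sum_congr rfl
        intro p hp
        rw [hI, mem_filter, mem_product, mem_powersetCard, mem_powersetCard] at hp
        have h3 := card_cross hp.2
        rw [hp.1.1.2, hp.1.2.2] at h3
        rw [← h3]
        exact card_restricted t (cross p.1 p.2) A0
    _ = I.card * (A0.card ^ (k * k) * t ^ Fintype.card (Sym2 (Fin n))) := by
        rw [sum_const, smul_eq_mul]
    _ ≤ _ := Nat.mul_le_mul_right _ h2

end

lemma two_mul_pred_pow (t : ℕ) (ht : 2 ≤ t) : 2 * (t - 1) ^ t ≤ t ^ t := by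
  obtain ⟨u, rfl⟩ : ∃ u, t = u + 1 := ⟨t - 1, by omega⟩
  have hu : 1 ≤ u := by omega
  rw [Nat.add_sub_cancel]
  have h := one_add_mul_le_pow (R := ℚ) (a := 1 / u) (by
    have : (0 : ℚ) ≤ 1 / u := by positivity
    linarith) (u + 1)
  have hu' : (0 : ℚ) < u := by exact_mod_cast hu
  have h1 : (2 : ℚ) ≤ (1 + 1 / u) ^ (u + 1) := by
    refine le_trans ?_ h
    push_cast
    have : ((u : ℚ) + 1) * (1 / u) = 1 + 1 / u := by field_simp
    rw [this]
    have : (0 : ℚ) ≤ 1 / u := by positivity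
    linarith
  have h2 : (1 + 1 / (u : ℚ)) ^ (u + 1) * (u : ℚ) ^ (u + 1) = (u + 1 : ℚ) ^ (u + 1) := by
    rw [← mul_pow]
    congr 1
    field_simp
  have h3 : (2 : ℚ) * (u : ℚ) ^ (u + 1) ≤ (u + 1 : ℚ) ^ (u + 1) := by
    rw [← h2]
    exact mul_le_mul_of_nonneg_right h1 (by positivity)
  exact_mod_cast h3

/-- the two numerical estimates -/
lemma num1 (t a : ℕ) (ht : 3 ≤ t) (ha : 2 * a + 1 ≤ t) :
    2 * (t ^ a) ^ (2 * t) < t ^ (t * t) := by
  have h1 : (t ^ a) ^ (2 * t) = t ^ (2 * a * t) := by rw [← pow_mul]; congr 1; ring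
  rw [h1]
  have h2 : 2 * a * t + 1 ≤ t * t := by nlinarith
  calc 2 * t ^ (2 * a * t) < t * t ^ (2 * a * t) :=
        Nat.mul_lt_mul_of_pos_right (by omega) (by positivity)
    _ = t ^ (2 * a * t + 1) := by rw [pow_succ]; ring
    _ ≤ t ^ (t * t) := Nat.pow_le_pow_right (by omega) h2

lemma num2 (t a : ℕ) (ht : 3 ≤ t) (ha : 2 * a + 1 ≤ t) :
    2 * ((t ^ a) ^ (2 * t ^ 3) * (t - 1) ^ (t ^ 3 * t ^ 3)) ≤ t ^ (t ^ 3 * t ^ 3) := by
  have e1 : (t - 1) ^ (t ^ 3 * t ^ 3) = ((t - 1) ^ t) ^ (t ^ 5) := by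
    rw [← pow_mul]; congr 1; ring
  have e2 : t ^ (t ^ 3 * t ^ 3) = (t ^ t) ^ (t ^ 5) := by
    rw [← pow_mul]; congr 1; ring
  have h1 : (2 * (t - 1) ^ t) ^ (t ^ 5) ≤ (t ^ t) ^ (t ^ 5) :=
    Nat.pow_le_pow_left (two_mul_pred_pow t (by omega)) _
  rw [mul_pow] at h1
  have h2 : t ≤ 2 ^ (t - 1) := by
    have := Nat.lt_two_pow_self (n := t - 1)
    omega
  have h3 : 2 * (t ^ a) ^ (2 * t ^ 3) ≤ 2 ^ (t ^ 5) := by
    calc 2 * (t ^ a) ^ (2 * t ^ 3) = 2 * t ^ (2 * a * t ^ 3) := by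
          rw [← pow_mul]; congr 2; ring
      _ ≤ 2 * (2 ^ (t - 1)) ^ (2 * a * t ^ 3) :=
          Nat.mul_le_mul_left _ (Nat.pow_le_pow_left h2 _)
      _ = 2 ^ ((t - 1) * (2 * a * t ^ 3) + 1) := by rw [← pow_mul, pow_succ]; ring
      _ ≤ 2 ^ (t ^ 5) := by
          apply Nat.pow_le_pow_right (by norm_num)
          have h4 : (t - 1) * (2 * a * t ^ 3) ≤ (t - 1) * (t * t ^ 3) :=
            Nat.mul_le_mul_left _ (Nat.mul_le_mul_right _ (by omega))
          have h5 : (t - 1) * (t * t ^ 3) + t * t ^ 3 = t ^ 5 := by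
            obtain ⟨u, rfl⟩ : ∃ u, t = u + 1 := ⟨t - 1, by omega⟩
            rw [Nat.add_sub_cancel]; ring
          have h6 : 1 ≤ t * t ^ 3 := Nat.mul_pos (by omega) (by positivity)
          omega
  calc 2 * ((t ^ a) ^ (2 * t ^ 3) * (t - 1) ^ (t ^ 3 * t ^ 3))
      = (2 * (t ^ a) ^ (2 * t ^ 3)) * ((t - 1) ^ t) ^ (t ^ 5) := by rw [e1]; ring
    _ ≤ 2 ^ (t ^ 5) * ((t - 1) ^ t) ^ (t ^ 5) := Nat.mul_le_mul_right _ h3
    _ ≤ (t ^ t) ^ (t ^ 5) := h1
    _ = _ := e2.symm

/-- A graph on `t ^ a` vertices without two completely joined disjoint `t`-sets and without two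
disjoint `t ^ 3`-sets with no edge between them. -/
lemma exists_graph (t a : ℕ) (ht : 3 ≤ t) (ha : 2 * a + 1 ≤ t) :
    ∃ G : SimpleGraph (Fin (t ^ a)),
      (∀ A B : Finset (Fin (t ^ a)), A.card = t → B.card = t → Disjoint A B →
        ∃ x ∈ A, ∃ y ∈ B, ¬ G.Adj x y) ∧
      (∀ A B : Finset (Fin (t ^ a)), A.card = t ^ 3 → B.card = t ^ 3 → Disjoint A B →
        ∃ x ∈ A, ∃ y ∈ B, G.Adj x y) := by
  classical
  have : NeZero t := ⟨by omega⟩
  set n := t ^ a with hn
  set M := Fintype.card (Sym2 (Fin n)) with hM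
  have hA1 : ({0} : Finset (Fin t)).card = 1 := card_singleton _
  have hA2 : (({0} : Finset (Fin t))ᶜ).card = t - 1 := by
    rw [card_compl, card_singleton, Fintype.card_fin]
  have b1 := card_badSet n t t ({0} : Finset (Fin t))
  have b2 := card_badSet n t (t ^ 3) (({0} : Finset (Fin t))ᶜ)
  rw [hA1, one_pow, one_mul, ← hM] at b1
  rw [hA2, ← hM] at b2
  have htM : 0 < t ^ M := by positivity
  have c1 : 2 * (badSet n t t ({0} : Finset (Fin t))).card < t ^ M := by
    have p := num1 t a ht ha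
    rw [← hn] at p
    have hpos : 0 < t ^ (t * t) := by positivity
    have : 2 * (badSet n t t ({0} : Finset (Fin t))).card * t ^ (t * t) < t ^ M * t ^ (t * t) := by
      calc 2 * (badSet n t t ({0} : Finset (Fin t))).card * t ^ (t * t)
          = 2 * ((badSet n t t ({0} : Finset (Fin t))).card * t ^ (t * t)) := by ring
        _ ≤ 2 * (n ^ (2 * t) * t ^ M) := Nat.mul_le_mul_left _ b1
        _ = 2 * n ^ (2 * t) * t ^ M := by ring
        _ < t ^ (t * t) * t ^ M := Nat.mul_lt_mul_of_pos_right p htM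
        _ = _ := by ring
    exact lt_of_mul_lt_mul_right this hpos.le
  have c2 : 2 * (badSet n t (t ^ 3) (({0} : Finset (Fin t))ᶜ)).card ≤ t ^ M := by
    have p := num2 t a ht ha
    rw [← hn] at p
    have hpos : 0 < t ^ (t ^ 3 * t ^ 3) := by positivity
    have : 2 * (badSet n t (t ^ 3) (({0} : Finset (Fin t))ᶜ)).card * t ^ (t ^ 3 * t ^ 3) ≤
        t ^ M * t ^ (t ^ 3 * t ^ 3) := by
      calc 2 * (badSet n t (t ^ 3) (({0} : Finset (Fin t))ᶜ)).card * t ^ (t ^ 3 * t ^ 3)
          = 2 * ((badSet n t (t ^ 3) (({0} : Finset (Fin t))ᶜ)).card * t ^ (t ^ 3 * t ^ 3)) := by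
            ring
        _ ≤ 2 * (n ^ (2 * t ^ 3) * ((t - 1) ^ (t ^ 3 * t ^ 3) * t ^ M)) :=
            Nat.mul_le_mul_left _ b2
        _ = 2 * (n ^ (2 * t ^ 3) * (t - 1) ^ (t ^ 3 * t ^ 3)) * t ^ M := by ring
        _ ≤ t ^ (t ^ 3 * t ^ 3) * t ^ M := Nat.mul_le_mul_right _ p
        _ = _ := by ring
    exact le_of_mul_le_mul_right this hpos
  have hcard : (badSet n t t ({0} : Finset (Fin t)) ∪
      badSet n t (t ^ 3) (({0} : Finset (Fin t))ᶜ)).card <
      (univ : Finset (Sym2 (Fin n) → Fin t)).card := by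
    have h1 : (univ : Finset (Sym2 (Fin n) → Fin t)).card = t ^ M := by
      rw [card_univ, Fintype.card_fun, Fintype.card_fin]
    rw [h1]
    have := card_union_le (badSet n t t ({0} : Finset (Fin t)))
      (badSet n t (t ^ 3) (({0} : Finset (Fin t))ᶜ))
    omega
  obtain ⟨f, -, hf⟩ := exists_mem_notMem_of_card_lt_card hcard
  rw [mem_union, not_or] at hf
  obtain ⟨hf1, hf2⟩ := hf
  unfold badSet at hf1 hf2
  rw [mem_filter, not_and] at hf1 hf2
  have hf1 := hf1 (mem_univ _)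
  have hf2 := hf2 (mem_univ _)
  refine ⟨⟨fun x y => x ≠ y ∧ f s(x, y) = 0, ?_, ?_⟩, ?_, ?_⟩
  · constructor
    intro x y h
    refine ⟨h.1.symm, ?_⟩
    rw [Sym2.eq_swap]; exact h.2
  · constructor
    intro x h
    exact h.1 rfl
  · intro A B hA hB hAB
    by_contra hcon
    push Not at hcon
    apply hf1
    refine ⟨A, B, hA, hB, hAB, fun x hx y hy => ?_⟩
    rw [mem_singleton]
    exact (hcon x hx y hy).2
  · intro A B hA hB hAB
    by_contra hcon
    push Not at hcon
    apply hf2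
    refine ⟨A, B, hA, hB, hAB, fun x hx y hy => ?_⟩
    rw [mem_compl, mem_singleton]
    intro h0
    refine hcon x hx y hy ⟨?_, h0⟩
    rintro rfl
    exact disjoint_left.mp hAB hx hy

end Pool.Agent.KS6_61.BQ
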