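import Pool.Agent.KS6_61.BQ.Count
import Pool.Graph.R_pool_sql_team_seeded_620a6dc7.Results.MP_4d84d8_co.BicliqueOrC4Free

/-!
# A linear lower bound for the exponent of `K_{t,t}`
-/

set_option autoImplicit false

namespace Pool.Agent.KS6_61.BQ

open Finset SimpleGraph
open Pool.Agent.Results.MP_4d84d8_co.BicliqueOrC4Free

section
variable {V : Type*} [Fintype V] [DecidableEq V] {G : SimpleGraph V} [DecidableRel G.Adj]

/-- neighbours inside a set -/
def nbr (G : SimpleGraph V) [DecidableRel G.Adj] (X : Finset V) (v : V) : Finset V :=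
  X.filter (fun u => G.Adj v u)

/-- few vertices of `X` have fewer than `D` neighbours in `X` -/
lemma few_low {k : ℕ} (hE : ∀ A B : Finset V, A.card = k → B.card = k → Disjoint A B →
      ∃ x ∈ A, ∃ y ∈ B, G.Adj x y) (X : Finset V) (D : ℕ) (hX : k * D + 2 * k ≤ X.card) :
    (X.filter (fun v => (nbr G X v).card ≤ D)).card < k := by
  by_contra hcon
  push Not at hcon
  obtain ⟨A, hA, hAc⟩ := exists_subset_card_eq hcon
  have hAX : A ⊆ X := hA.trans (filter_subset _ _)
  set N := A.biUnion (fun v => nbr G X v) with hN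
  have hNc : N.card ≤ k * D := by
    calc N.card ≤ ∑ v ∈ A, (nbr G X v).card := card_biUnion_le
      _ ≤ ∑ v ∈ A, D := sum_le_sum (fun v hv => (mem_filter.mp (hA hv)).2)
      _ = k * D := by rw [sum_const, smul_eq_mul, hAc]
  have h1 : k ≤ (X \ (A ∪ N)).card := by
    have h2 := le_card_sdiff (A ∪ N) X
    have h3 := card_union_le A N
    omega
  obtain ⟨B, hB, hBc⟩ := exists_subset_card_eq h1
  have hAB : Disjoint A B := by
    rw [Finset.disjoint_left]
    intro x hxA hxB
    have := (mem_sdiff.mp (hB hxB)).2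
    exact this (mem_union_left _ hxA)
  obtain ⟨x, hx, y, hy, hxy⟩ := hE A B hAc hBc hAB
  have h4 := mem_sdiff.mp (hB hy)
  apply h4.2
  apply mem_union_right
  rw [hN, mem_biUnion]
  refine ⟨x, hx, ?_⟩
  unfold nbr
  rw [mem_filter]
  exact ⟨h4.1, hxy⟩

/-- few vertices of `R` have no neighbours in a `k`-set `A` -/
lemma few_nonadj {k : ℕ} (hE : ∀ A B : Finset V, A.card = k → B.card = k → Disjoint A B →
      ∃ x ∈ A, ∃ y ∈ B, G.Adj x y) (A R : Finset V) (hA : A.card = k) (hAR : Disjoint A R) :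
    (R.filter (fun v => ∀ x ∈ A, ¬ G.Adj x v)).card < k := by
  by_contra hcon
  push Not at hcon
  obtain ⟨B, hB, hBc⟩ := exists_subset_card_eq hcon
  obtain ⟨x, hx, y, hy, hxy⟩ := hE A B hA hBc
    (hAR.mono_right (hB.trans (filter_subset _ _)))
  exact (mem_filter.mp (hB hy)).2 x hx hxy

/-- large sets contain a 4-cycle -/
lemma exists_C4 {k : ℕ} (hk : 2 ≤ k) (hE : ∀ A B : Finset V, A.card = k → B.card = k →
      Disjoint A B → ∃ x ∈ A, ∃ y ∈ B, G.Adj x y) (X : Finset V)
    (hX : 2 * k * k + 2 * k ≤ X.card) :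
    ∃ v ∈ X, ∃ x ∈ X, ∃ u ∈ X, ∃ y ∈ X, v ≠ u ∧ x ≠ y ∧ G.Adj v x ∧ G.Adj x u ∧ G.Adj u y ∧
      G.Adj y v := by
  have h1 := few_low (G := G) hE X (2 * k) (by nlinarith)
  have h2 : ∃ v ∈ X, 2 * k < (nbr G X v).card := by
    by_contra hcon
    push Not at hcon
    have h3 : X.filter (fun v => (nbr G X v).card ≤ 2 * k) = X :=
      filter_true_of_mem hcon
    rw [h3] at h1
    nlinarith
  obtain ⟨v, hv, hdeg⟩ := h2
  obtain ⟨P, hP, hPc⟩ := exists_subset_card_eq (show 2 * k ≤ (nbr G X v).card by omega)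
  obtain ⟨A, hA, hAc⟩ := exists_subset_card_eq (show k ≤ P.card by omega)
  set B := P \ A with hB
  have hBc : B.card = k := by
    rw [hB, card_sdiff_of_subset hA]; omega
  have hPX : ∀ x ∈ P, x ∈ X ∧ G.Adj v x := by
    intro x hx
    have := hP hx
    unfold nbr at this
    exact mem_filter.mp this
  set R := X \ (insert v P) with hR
  have hRc : 2 * k ≤ R.card := by
    have h3 := le_card_sdiff (insert v P) X
    rw [← hR] at h3
    have h4 := card_insert_le v P
    have h5 : 4 * k + 1 ≤ 2 * k * k + 2 * k := by nlinarith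
    omega
  have hAR : Disjoint A R := by
    rw [Finset.disjoint_left]
    intro x hx hxR
    exact (mem_sdiff.mp hxR).2 (mem_insert_of_mem (hA hx))
  have hBR : Disjoint B R := by
    rw [Finset.disjoint_left]
    intro x hx hxR
    exact (mem_sdiff.mp hxR).2 (mem_insert_of_mem ((mem_sdiff.mp hx).1))
  have e1 := few_nonadj (G := G) hE A R hAc hAR
  have e2 := few_nonadj (G := G) hE B R hBc hBR
  have h6 : ∃ u ∈ R, (∃ x ∈ A, G.Adj x u) ∧ (∃ y ∈ B, G.Adj y u) := by
    by_contra hcon
    push Not at hcon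
    have h7 : R ⊆ R.filter (fun v => ∀ x ∈ A, ¬ G.Adj x v) ∪
        R.filter (fun v => ∀ x ∈ B, ¬ G.Adj x v) := by
      intro u hu
      rw [mem_union, mem_filter, mem_filter]
      by_cases h : ∃ x ∈ A, G.Adj x u
      · right; exact ⟨hu, hcon u hu h⟩
      · left
        push Not at h
        exact ⟨hu, h⟩
    have h8 := (card_le_card h7).trans (card_union_le _ _)
    omega
  obtain ⟨u, hu, ⟨x, hx, hxu⟩, ⟨y, hy, hyu⟩⟩ := h6
  have huX := mem_sdiff.mp hu
  have hxP := hPX x (hA hx)
  have hyP := hPX y (mem_sdiff.mp hy).1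
  refine ⟨v, hv, x, hxP.1, u, huX.1, y, hyP.1, ?_, ?_, hxP.2, hxu, hyu.symm, hyP.2.symm⟩
  · rintro rfl
    exact huX.2 (mem_insert_self _ _)
  · rintro rfl
    exact (mem_sdiff.mp hy).2 hx

/-- no `K_{s,s}` for `s ≥ t` -/
lemma no_biclique {t : ℕ} (hN : ∀ A B : Finset V, A.card = t → B.card = t → Disjoint A B →
      ∃ x ∈ A, ∃ y ∈ B, ¬ G.Adj x y) (s : ℕ) (hs : t ≤ s) :
    ¬ completeBipartiteGraph (Fin s) (Fin s) ⊑ G := by
  rintro ⟨f⟩
  set A : Finset V := univ.image (fun i : Fin t => f (Sum.inl (Fin.castLE hs i))) with hA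
  set B : Finset V := univ.image (fun i : Fin t => f (Sum.inr (Fin.castLE hs i))) with hB
  have hAc : A.card = t := by
    rw [hA, card_image_of_injective, card_univ, Fintype.card_fin]
    intro i j hij
    have := f.injective hij
    exact (Fin.castLE_injective hs) (Sum.inl_injective this)
  have hBc : B.card = t := by
    rw [hB, card_image_of_injective, card_univ, Fintype.card_fin]
    intro i j hij
    have := f.injective hij
    exact (Fin.castLE_injective hs) (Sum.inr_injective this)
  have hAB : Disjoint A B := by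
    rw [Finset.disjoint_left]
    intro x hx hy
    rw [hA, mem_image] at hx
    rw [hB, mem_image] at hy
    obtain ⟨i, -, rfl⟩ := hx
    obtain ⟨j, -, hj⟩ := hy
    have := f.injective hj
    exact absurd this (by simp)
  obtain ⟨x, hx, y, hy, hxy⟩ := hN A B hAc hBc hAB
  rw [hA, mem_image] at hx
  rw [hB, mem_image] at hy
  obtain ⟨i, -, rfl⟩ := hx
  obtain ⟨j, -, rfl⟩ := hy
  apply hxy
  exact f.toHom.map_adj (by simp [completeBipartiteGraph])

/-- the average degree is large -/
lemma avgDeg_lower {k : ℕ} (D : ℕ) (hk : 1 ≤ k) (hE : ∀ A B : Finset V, A.card = k →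
      B.card = k → Disjoint A B → ∃ x ∈ A, ∃ y ∈ B, G.Adj x y)
    (hV : k * D + 2 * k ≤ Fintype.card V) :
    ((Fintype.card V - k : ℕ) : ℝ) * D ≤ avgDeg G * (Fintype.card V : ℝ) := by
  have : Nonempty V := by
    rw [← Fintype.card_pos_iff]; omega
  rw [avgDeg_mul_card]
  have h1 := few_low (G := G) hE univ D (by rwa [card_univ])
  have h2 : ∀ v, (nbr G univ v).card = G.degree v := by
    intro v
    rw [← SimpleGraph.card_neighborFinset_eq_degree]
    congr 1
    ext u
    unfold nbr
    rw [mem_filter, SimpleGraph.mem_neighborFinset]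
    simp
  set L := univ.filter (fun v => (nbr G univ v).card ≤ D) with hL
  have h3 : (Fintype.card V - k) * D ≤ ∑ v, G.degree v := by
    calc (Fintype.card V - k) * D ≤ (Lᶜ).card * D := by
          apply Nat.mul_le_mul_right
          rw [card_compl]; omega
      _ = ∑ v ∈ Lᶜ, D := by rw [sum_const, smul_eq_mul]
      _ ≤ ∑ v ∈ Lᶜ, G.degree v := by
          apply sum_le_sum
          intro v hv
          rw [hL, mem_compl, mem_filter, not_and] at hv
          have := hv (mem_univ _)
          rw [h2] at this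
          omega
      _ ≤ ∑ v, G.degree v := sum_le_univ_sum_of_nonneg (fun _ => Nat.zero_le _)
  exact_mod_cast h3

end

/-- a graph with few vertices has small average degree -/
lemma avgDeg_lt_card {V : Type*} [Finite V] [Nonempty V] (G : SimpleGraph V) :
    avgDeg G < (Nat.card V : ℝ) := by
  classical
  have : Fintype V := Fintype.ofFinite V
  rw [Nat.card_eq_fintype_card]
  have hpos : (0 : ℝ) < (Fintype.card V : ℝ) := by exact_mod_cast Fintype.card_pos
  have h1 := avgDeg_mul_card G
  have h2 : ∑ v, G.degree v < Fintype.card V * Fintype.card V := by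
    calc ∑ v, G.degree v < ∑ v : V, Fintype.card V :=
          sum_lt_sum_of_nonempty univ_nonempty (fun v _ => G.degree_lt_card_verts v)
      _ = _ := by rw [sum_const, smul_eq_mul, card_univ]
  have h3 : avgDeg G * (Fintype.card V : ℝ) < (Fintype.card V : ℝ) * (Fintype.card V : ℝ) := by
    rw [h1]; exact_mod_cast h2
  exact lt_of_mul_lt_mul_right h3 hpos.le

end Pool.Agent.KS6_61.BQ
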