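import Pool.Graph.R_pool_sql_team_seeded_620a6dc7.Helper286_biclique.Core
import Pool.Graph.R_pool_sql_team_seeded_620a6dc7.Results.MP_4d84d8_co.BicliqueOrC4Free

/-!
# Bicliques or dense induced `C_4`-free subgraphs: an explicit quadratic exponent
-/

set_option autoImplicit false

namespace Pool.Agent.KS6_61.BQ

open Finset Pool.Agent.Helper286_biclique

/-- bounded by the power `x ^ b` -/
def PE (f : ℕ → ℕ) (b : ℕ) : Prop := ∀ x, 2 ≤ x → f x ≤ x ^ b

lemma PE.mono {f : ℕ → ℕ} {a b : ℕ} (h : PE f a) (hab : a ≤ b) : PE f b := fun x hx =>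
  (h x hx).trans (Nat.pow_le_pow_right (by omega) hab)

lemma PE.const (c a : ℕ) (h : c ≤ 2 ^ a) : PE (fun _ => c) a := fun _ hx =>
  h.trans (Nat.pow_le_pow_left hx a)

lemma PE.id : PE (fun x => x) 1 := fun _ _ => by simp

lemma PE.mul {f g : ℕ → ℕ} {a b : ℕ} (hf : PE f a) (hg : PE g b) :
    PE (fun x => f x * g x) (a + b) := by
  intro x hx
  rw [pow_add]
  exact Nat.mul_le_mul (hf x hx) (hg x hx)

lemma PE.add {f g : ℕ → ℕ} {a : ℕ} (hf : PE f a) (hg : PE g a) :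
    PE (fun x => f x + g x) (a + 1) := by
  intro x hx
  calc f x + g x ≤ x ^ a + x ^ a := Nat.add_le_add (hf x hx) (hg x hx)
    _ = 2 * x ^ a := by ring
    _ ≤ x * x ^ a := Nat.mul_le_mul_right _ hx
    _ = x ^ (a + 1) := by rw [pow_succ]; ring

lemma PE.pow {f : ℕ → ℕ} {a : ℕ} (hf : PE f a) (n : ℕ) : PE (fun x => f x ^ n) (a * n) := by
  intro x hx
  rw [pow_mul]
  exact Nat.pow_le_pow_left (hf x hx) n

lemma PE_two : PE (fun _ => 2) 1 := PE.const 2 1 (by norm_num)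
lemma PE_four : PE (fun _ => 4) 2 := PE.const 4 2 (by norm_num)
lemma PE_sixteen : PE (fun _ => 16) 4 := PE.const 16 4 (by norm_num)
lemma PE_one : PE (fun _ => 1) 0 := PE.const 1 0 (by norm_num)
lemma PE_nat (h : ℕ) : PE (fun _ => h) h := PE.const h h (Nat.lt_two_pow_self).le

lemma PE_bad1 (h : ℕ) : PE (fun x => bad1 x h) (3 * h + 1) := by
  unfold bad1
  exact (((PE_four.pow h).mul (PE_nat h)).mul PE.id).mono (by ring_nf; omega)

lemma PE_theta (h : ℕ) : PE (fun x => theta x h) (5 * h + 1) := by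
  unfold theta
  have h1 : PE (fun x => (2 * x) ^ h) ((1 + 1) * h) := (PE_two.mul PE.id).pow h
  have h2 : PE (fun x => (4 * x) ^ h) ((2 + 1) * h) := (PE_four.mul PE.id).pow h
  have h3 : PE (fun x => (4 * x) ^ h + h) ((2 + 1) * h + 1) :=
    h2.add ((PE_nat h).mono (by omega))
  exact (h1.mul h3).mono (by ring_nf; omega)

lemma PE_nOne (h : ℕ) : PE (fun x => nOne x h) (3 * h ^ 2 + 3 * h + 2) := by
  unfold nOne
  have h1 : PE (fun x => (4 * x) ^ (h * h)) ((2 + 1) * (h * h)) := (PE_four.mul PE.id).pow (h * h)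
  exact ((PE_two.mul (PE_bad1 h)).mul h1).mono (by ring_nf; omega)

lemma PE_yZero {g : ℕ → ℕ} {a : ℕ} (hg : PE g a) (h : ℕ) :
    PE (fun x => yZero x h (g x)) ((a + 1) * (h + 1) + 3 * h ^ 2 + 5 * h + 2) := by
  unfold yZero
  have h1 : PE (fun x => (2 * g x) ^ (h + 1)) ((1 + a) * (h + 1)) := (PE_two.mul hg).pow (h + 1)
  have h2 : PE (fun x => (4 * x) ^ (h * h)) ((2 + 1) * (h * h)) := (PE_four.mul PE.id).pow (h * h)
  exact (h1.mul ((PE_two.mul h2).mul (PE_theta h))).mono (by ring_nf; omega)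

lemma PE_pl {g : ℕ → ℕ} {a : ℕ} (hg : PE g a) : PE (fun x => pl (g x)) (13 + a * 2) := by
  unfold pl
  exact (PE.const 6432 13 (by norm_num)).mul (hg.pow 2)

lemma PE_pnu {g : ℕ → ℕ} {a : ℕ} (hg : PE g a) : PE (fun x => pnu (g x) x) (16 + a * 2) := by
  unfold pnu
  exact ((PE_four.mul (PE_pl hg)).mul PE.id).mono (by omega)

lemma PE_pmu {g : ℕ → ℕ} {a : ℕ} (hg : PE g a) : PE (fun x => pmu (g x) x) (67 + a * 8) := by
  unfold pmu
  exact (((PE.const 48 6 (by norm_num)).mul (PE_pl hg)).mul ((PE_pnu hg).pow 3)).mono (by omega)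

lemma PE_expo (m : ℕ) : PE (fun s => expo m s) (2 * m + 10) := by
  unfold expo
  have hid := PE.id
  have hK : PE (fun s => s ^ m) m := (hid.pow m).mono (by omega)
  have h2s : PE (fun s => 2 * s) 2 := (PE_two.mul hid)
  have hm : PE (fun _ => m) m := PE_nat m
  have hm1 : PE (fun _ => m + 1) (m + 1) := hm.add (PE_one.mono (Nat.zero_le m))
  -- the four groups
  have g1 : PE (fun s => 4 + 2 * s) 3 := PE_four.add h2s
  have g2 : PE (fun s => 1 + s ^ m * (5 + 2 * s + s ^ m)) (2 * m + 6) := by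
    have a1 : PE (fun s => 5 + 2 * s) 4 := (PE.const 5 3 (by norm_num)).add (h2s.mono (by omega))
    have a2 : PE (fun s => 5 + 2 * s + s ^ m) (m + 5) :=
      (a1.mono (show 4 ≤ m + 4 by omega)).add (hK.mono (by omega))
    have a3 : PE (fun s => s ^ m * (5 + 2 * s + s ^ m)) (2 * m + 5) :=
      (hK.mul a2).mono (by omega)
    exact (PE_one.mono (Nat.zero_le _)).add a3
  have g3 : PE (fun s => m * (3 * s ^ m + 3 + 2 * s)) (2 * m + 4) := by
    have a0 : PE (fun _ => 3) 2 := PE.const 3 2 (by norm_num)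
    have a1 : PE (fun s => 3 * s ^ m + 3) (m + 3) :=
      ((a0.mul hK).mono (show 2 + m ≤ m + 2 by omega)).add (a0.mono (by omega))
    have a2 : PE (fun s => 3 * s ^ m + 3 + 2 * s) (m + 4) :=
      a1.add (h2s.mono (by omega))
    exact (hm.mul a2).mono (by omega)
  have g4 : PE (fun s => 6 * s * (m + 1) + (m + 1) + 1) (m + 7) := by
    have a1 : PE (fun s => 6 * s * (m + 1)) (m + 5) :=
      (((PE.const 6 3 (by norm_num)).mul hid).mul hm1).mono (by omega)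
    have a2 : PE (fun s => 6 * s * (m + 1) + (m + 1)) (m + 6) :=
      a1.add (hm1.mono (by omega))
    exact a2.add (PE_one.mono (Nat.zero_le _))
  have s1 : PE (fun s => 8 + (4 + 2 * s)) 4 := (PE.const 8 3 (by norm_num)).add g1
  have s2 : PE (fun s => 8 + (4 + 2 * s) + (1 + s ^ m * (5 + 2 * s + s ^ m))) (2 * m + 7) :=
    (s1.mono (show 4 ≤ 2 * m + 6 by omega)).add g2
  have s3 : PE (fun s => 8 + (4 + 2 * s) + (1 + s ^ m * (5 + 2 * s + s ^ m)) +
      m * (3 * s ^ m + 3 + 2 * s)) (2 * m + 8) := s2.add (g3.mono (by omega))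
  exact (s3.add (g4.mono (show m + 7 ≤ 2 * m + 8 by omega))).mono (by omega)

/-- the exponent -/
def qexp (h : ℕ) : ℕ := 1000 * h ^ 2

lemma params_explicit (m : ℕ) : 1 ≤ qexp (m + 1) ∧
    ∀ s d : ℕ, 2 ≤ s → s ^ qexp (m + 1) ≤ d → d < (s + 1) ^ qexp (m + 1) →
    ∃ J : ℕ, 1 ≤ J ∧ 4 * (s ^ m) ^ 2 ≤ d / 16 ∧
      4 * ((s ^ m) ^ (m + 1) * bad1 s (m + 1)) ≤ d / 16 ∧
      2 * (4 * (s ^ m) ^ 2) * nOne s (m + 1) ≤ d / 16 ∧
      yZero s (m + 1) (4 * (s ^ m) ^ 2) < d / 16 ∧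
      256 * Theta s m s (2 * d) (2 * (8 * d + s ^ m * (2 * d))) ≤ 2 ^ J ∧
      pnu J s ≤ d ∧ pmu J s * yZero s (m + 1) (pmu J s) ≤ d ∧
      2 * pmu J s * nOne s (m + 1) * pmu J s ≤ d := by
  obtain ⟨h, hh⟩ : ∃ h, h = m + 1 := ⟨_, rfl⟩
  rw [← hh]
  have hh1 : 1 ≤ h := by omega
  have hh2 : h ≤ h ^ 2 := by nlinarith
  set C := qexp h with hCdef
  have hCe : C = 1000 * h ^ 2 := rfl
  have hC1 : 1 ≤ C := by omega
  refine ⟨hC1, ?_⟩
  have hid := PE.id
  have hK : PE (fun x => x ^ m) m := (hid.pow m).mono (by omega)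
  have h4K : PE (fun x => 4 * (x ^ m) ^ 2) (2 + m * 2) := PE_four.mul (hK.pow 2)
  have hmh : m * h ≤ h ^ 2 := by
    rw [sq]; exact Nat.mul_le_mul_right _ (by omega)
  -- the bound for `J`
  have hCb : C ≤ 2 ^ (10 + 2 * h) := by
    rw [hCe]
    have h2 : h ^ 2 ≤ (2 ^ h) ^ 2 := Nat.pow_le_pow_left (Nat.lt_two_pow_self).le 2
    calc 1000 * h ^ 2 ≤ 2 ^ 10 * (2 ^ h) ^ 2 := Nat.mul_le_mul (by norm_num) h2
      _ = 2 ^ (10 + 2 * h) := by rw [← pow_mul, ← pow_add]; congr 1; ring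
  have hJ : PE (fun s => C * expo m s) (4 * h + 18) :=
    ((PE.const C (10 + 2 * h) hCb).mul (PE_expo m)).mono (by omega)
  have g1 : PE (fun x => 16 * (4 * (x ^ m) ^ 2)) C := (PE_sixteen.mul h4K).mono (by omega)
  have g2 : PE (fun x => 16 * (4 * ((x ^ m) ^ h * bad1 x h))) C :=
    (PE_sixteen.mul (PE_four.mul ((hK.pow h).mul (PE_bad1 h)))).mono (by omega)
  have g3 : PE (fun x => 16 * (2 * (4 * (x ^ m) ^ 2) * nOne x h)) C :=
    (PE_sixteen.mul ((PE_two.mul h4K).mul (PE_nOne h))).mono (by omega)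
  have g4 : PE (fun x => 16 * (yZero x h (4 * (x ^ m) ^ 2) + 1)) C := by
    have a1 := (PE_yZero h4K h).add (PE_one.mono (Nat.zero_le _))
    refine (PE_sixteen.mul a1).mono ?_
    have e : (2 + m * 2 + 1) * (h + 1) = 2 * h ^ 2 + 3 * h + 1 := by
      obtain rfl : h = m + 1 := hh
      ring
    rw [e]
    omega
  have g5 : PE (fun x => pnu (C * expo m x) x) C := (PE_pnu hJ).mono (by omega)
  have g6 : PE (fun x => pmu (C * expo m x) x * yZero x h (pmu (C * expo m x) x)) C :=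
    ((PE_pmu hJ).mul (PE_yZero (PE_pmu hJ) h)).mono (by
      rw [hCe]
      ring_nf
      ring_nf at hh2
      omega)
  have g7 : PE (fun x => 2 * pmu (C * expo m x) x * nOne x h * pmu (C * expo m x) x) C :=
    (((PE_two.mul (PE_pmu hJ)).mul (PE_nOne h)).mul (PE_pmu hJ)).mono (by omega)
  intro s d hs hsd hds
  have hd1 : 1 ≤ d := le_trans (Nat.one_le_pow _ _ (by omega)) hsd
  have hd2 : d ≤ (2 * s) ^ C := hds.le.trans (Nat.pow_le_pow_left (by omega) C)
  have f1 := (g1 s hs).trans hsd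
  have f2 := (g2 s hs).trans hsd
  have f3 := (g3 s hs).trans hsd
  have f4 := (g4 s hs).trans hsd
  have f5 := (g5 s hs).trans hsd
  have f6 := (g6 s hs).trans hsd
  have f7 := (g7 s hs).trans hsd
  simp only at f1 f2 f3 f4 f5 f6 f7
  refine ⟨C * expo m s, ?_, ?_, ?_, ?_, ?_, ?_, ?_, ?_, ?_⟩
  · have : 1 ≤ expo m s := by unfold expo; omega
    exact Nat.mul_pos hC1 this
  · rw [Nat.le_div_iff_mul_le (by norm_num)]; omega
  · rw [Nat.le_div_iff_mul_le (by norm_num)]; omega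
  · rw [Nat.le_div_iff_mul_le (by norm_num)]; omega
  · rw [Nat.lt_iff_add_one_le, Nat.le_div_iff_mul_le (by norm_num)]; omega
  · exact Theta_le_two_pow s m C d hs hC1 hd1 hd2
  · exact f5
  · exact f6
  · exact f7

end Pool.Agent.KS6_61.BQ
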