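import Pool.Agent.KS6_61.BQ.Upper

/-!
# The dichotomy with the explicit exponent `1000 * |H| ^ 2`
-/

set_option autoImplicit false
set_option linter.unusedSectionVars false

namespace Pool.Agent.KS6_61.BQ

open Finset SimpleGraph Pool.Agent.Helper286_biclique
open Pool.Agent.Results.MP_4d84d8_co.BicliqueOrC4Free

/-- the core theorem with the explicit exponent `qexp (m + 1)` -/
theorem core_explicit {m : ℕ} (H : SimpleGraph (Fin (m + 1))) (hH : H.Colorable 2) :
    ∀ s : ℕ, 1 ≤ s → ∀ (V : Type*) [Fintype V] [DecidableEq V] [Nonempty V]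
      (G : SimpleGraph V) [DecidableRel G.Adj], IsEmpty (H ↪g G) →
      s ^ qexp (m + 1) * Fintype.card V ≤ ∑ v, (nb G univ v).card → KFree G s →
      ∃ X : Finset V, X.Nonempty ∧ C4F G X ∧ s * X.card ≤ ∑ v ∈ X, (nb G X v).card := by
  obtain ⟨hC1, hC⟩ := params_explicit m
  intro s hs V _ _ _ G _ hfree hdeg hK
  generalize qexp (m + 1) = C at hC1 hC hdeg
  obtain ⟨V0, d, hV0, hsd, hd0, hsub, hmin⟩ := exists_max_set (G := G) (s ^ C)
    (Nat.one_le_pow _ _ (by omega)) hdeg
  obtain ⟨t, hst, htd, hdt⟩ := exists_root C s d hC1 hsd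
  have hKt : KFree G t := hK.mono hst
  have hd1 : 1 ≤ d := le_trans (Nat.one_le_pow _ _ (by omega)) hsd
  suffices hmain : ∃ X : Finset V, X.Nonempty ∧ C4F G X ∧
      t * X.card ≤ ∑ v ∈ X, (nb G X v).card by
    obtain ⟨X, h1, h2, h3⟩ := hmain
    exact ⟨X, h1, h2, (Nat.mul_le_mul_right _ hst).trans h3⟩
  rcases Nat.lt_or_ge t 2 with ht | ht
  · -- `t = 1`: there is an edge
    exfalso
    have ht1 : t = 1 := by omega
    subst ht1
    obtain ⟨v, hv⟩ := hV0
    have h1 := hmin v hv
    have h2 : 0 < (nb G V0 v).card := by omega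
    obtain ⟨u, hu⟩ := card_pos.mp h2
    refine hKt {v} {u} (by simp) (by simp) ?_
    intro a ha b hb
    rw [mem_singleton] at ha hb
    subst ha; subst hb
    exact (mem_nb.mp hu).2
  · obtain ⟨J, hJ1, c1, c2, c3, c4, hunb, r0, r1, r2⟩ := hC t d ht htd hdt
    rcases dichotomy (G := G) V0 hV0 d J hd1 hJ1 hsub hmin with
      ⟨W, hW, hWup, hWlow⟩ | ⟨A, B, hA, hB, hAB, hBne, hlow, hup, hcard⟩
    · have hdΔ : d ≤ 134 * J * d := Nat.le_mul_of_pos_left _ (by omega)
      refine regular_case hKt (by omega) H hH hfree W hW (134 * J * d) (pl J) (pnu J t) (pmu J t) t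
        (by omega) ?_ hWup ?_ rfl rfl (r0.trans hdΔ) (r1.trans hdΔ) (r2.trans hdΔ)
      · unfold pl
        have : 0 < 6432 * J ^ 2 := by positivity
        exact this
      · calc 134 * J * d * W.card = 134 * J * (d * W.card) := by ring
          _ ≤ 134 * J * (48 * J * ∑ v ∈ W, (nb G W v).card) := Nat.mul_le_mul_left _ hWlow
          _ = pl J * ∑ v ∈ W, (nb G W v).card := by unfold pl; ring
    · refine unbalanced hKt H hH hfree A B hAB (2 * d) (d / 16) (8 * d) t
        (2 * (8 * d + t ^ m * (2 * d))) (by omega) (by omega)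
        (fun X hX => hsub X (hX.trans (union_subset hA hB))) ?_ hup c1 c2 c3 c4 le_rfl ?_ hBne ?_
      · intro b hb
        have := hlow b hb
        omega
      · have : 0 < 2 * (8 * d + t ^ m * (2 * d)) := by positivity
        exact this
      · have h1 : 256 * (Theta t m t (2 * d) (2 * (8 * d + t ^ m * (2 * d))) * A.card) ≤
            256 * B.card := by
          calc 256 * (Theta t m t (2 * d) (2 * (8 * d + t ^ m * (2 * d))) * A.card)
              = (256 * Theta t m t (2 * d) (2 * (8 * d + t ^ m * (2 * d)))) * A.card := by ring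
            _ ≤ 2 ^ J * A.card := Nat.mul_le_mul_right _ hunb
            _ ≤ _ := hcard
        exact Nat.le_of_mul_le_mul_left h1 (by norm_num)

/-- The dichotomy of Q1 with the exponent `1000 * |H| ^ 2`. -/
theorem upper {W : Type*} [Finite W] (H : SimpleGraph W) (hH : H.IsBipartite)
    (s : ℕ) (hs : 1 ≤ s) (V : Type*) [Finite V] [Nonempty V] (G : SimpleGraph V)
    (hfree : ¬ H ⊴ G) (hdeg : (s : ℝ) ^ (1000 * Nat.card W ^ 2) ≤ avgDeg G) :
    completeBipartiteGraph (Fin s) (Fin s) ⊑ G ∨
      ∃ X : Set V, X.Nonempty ∧ (cycleGraph 4).Free (G.induce X) ∧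
        (s : ℝ) ≤ avgDeg (G.induce X) := by
  classical
  obtain ⟨n, ⟨e⟩⟩ := Finite.exists_equiv_fin W
  have hn : Nat.card W = n := by rw [Nat.card_congr e, Nat.card_eq_fintype_card, Fintype.card_fin]
  rcases n with _ | m
  · have : IsEmpty W := e.isEmpty
    exact absurd IsIndContained.of_isEmpty hfree
  · have iso : H.comap e.symm ≃g H := SimpleGraph.Iso.comap e.symm H
    have hcol : (H.comap e.symm).Colorable 2 := hH.of_hom iso.toEmbedding.toHom
    rw [hn] at hdeg
    have : Fintype V := Fintype.ofFinite V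
    have hC := core_explicit (H.comap e.symm) hcol s hs V G
    by_cases hK : KFree G s
    · right
      have hfree' : IsEmpty (H.comap e.symm ↪g G) :=
        ⟨fun f => hfree ⟨iso.symm.toEmbedding.trans f⟩⟩
      have hdeg' : s ^ qexp (m + 1) * Fintype.card V ≤ ∑ v, (nb G Finset.univ v).card := by
        rw [sum_nb_univ]
        have h1 := avgDeg_mul_card G
        have h2 : (s : ℝ) ^ (1000 * (m + 1) ^ 2) * (Fintype.card V : ℝ) ≤
            avgDeg G * (Fintype.card V : ℝ) :=
          mul_le_mul_of_nonneg_right hdeg (Nat.cast_nonneg _)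
        rw [h1] at h2
        unfold qexp
        exact_mod_cast h2
      obtain ⟨X, hXne, hXC4, hXdeg⟩ := hC hfree' hdeg' hK
      refine ⟨(X : Set V), by exact_mod_cast hXne, free_of_C4F G X hXC4, ?_⟩
      have : Nonempty (X : Set V) := hXne.to_subtype
      rw [sum_nb_induce] at hXdeg
      have h1 := avgDeg_mul_card (G.induce (X : Set V))
      have h2 : (Fintype.card (X : Set V)) = X.card := by simp
      have h3 : (s : ℝ) * (Fintype.card (X : Set V) : ℝ) ≤
          avgDeg (G.induce (X : Set V)) * (Fintype.card (X : Set V) : ℝ) := by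
        rw [h1, h2]
        exact_mod_cast hXdeg
      have h4 : (0 : ℝ) < (Fintype.card (X : Set V) : ℝ) := by
        exact_mod_cast Fintype.card_pos
      exact le_of_mul_le_mul_right h3 h4
    · left
      exact contains_of_not_KFree G s hK

end Pool.Agent.KS6_61.BQ
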